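import Pool.Agent.N483.KM.StmP

/-!
Part P2 of project KM (helper170; statement and proof of helper483, adaptation of helper717's OLF):
the lift of a body given by few inequalities to a section of maximal volume, with linear parameters.
-/

set_option autoImplicit false

namespace Pool.Agent.N170.KM

open MeasureTheory Set Filter Topology
open scoped ENNReal InnerProductSpace
open Pool.Agent.R754.KG (E un sl Rv)
open Pool.Agent.R755.KF (CB)
open Pool.Agent.N483.KM

section

variable {r n q m : ℕ} {S : Fin r → E n × E q → ℝ}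

lemma cont (hS : ∀ j, ConvexOn ℝ univ (S j)) (j : Fin r) : Continuous (S j) :=
  (hS j).locallyLipschitz.continuous

lemma conv (hS : ∀ j, ConvexOn ℝ univ (S j)) (j : Fin r) {x y : E n × E q} {a b : ℝ}
    (ha : 0 ≤ a) (hb : 0 ≤ b) (hab : a + b = 1) :
    S j (a • x + b • y) ≤ a * S j x + b * S j y := by
  simpa using (hS j).2 (mem_univ x) (mem_univ y) ha hb hab

/-- the sublevel sets of a subfamily -/
def Bt (S : Fin r → E n × E q → ℝ) (idx : Fin m → Fin r) (t : Fin m → ℝ) (u : E q) : Set (E n) :=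
  {x | ∀ a, S (idx a) (x, u) ≤ t a}

lemma sum_idx {l : Fin r → ℝ} {idx : Fin m → Fin r} (hinj : Function.Injective idx)
    (hr : ∀ j, l j ≠ 0 → ∃ a, idx a = j) (f : Fin r → ℝ) :
    ∑ a, l (idx a) * f (idx a) = ∑ j, l j * f j := by
  refine Finset.sum_of_injOn idx hinj.injOn (fun _ _ => Finset.mem_coe.2 (Finset.mem_univ _))
    ?_ (fun _ _ => rfl)
  intro j _ hj
  have : l j = 0 := by
    by_contra h
    obtain ⟨a, ha⟩ := hr j h
    exact hj ⟨a, Finset.mem_coe.2 (Finset.mem_univ _), ha⟩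
  rw [this, zero_mul]

lemma claim1 {l e : Fin r → ℝ} {c : E q} {idx : Fin m → Fin r} {t : Fin m → ℝ} {u : E q}
    (h : ∀ (s : Fin r → ℝ) (u : E q), ∑ j, l j * s j + ⟪c, u⟫_ℝ ≤ ∑ j, l j * e j →
      volume (LV S s u) ≤ volume (LV S e 0))
    (hinj : Function.Injective idx) (hr : ∀ j, l j ≠ 0 → ∃ a, idx a = j)
    (ht : ∑ a, l (idx a) * t a + ⟪c, u⟫_ℝ ≤ ∑ a, l (idx a) * e (idx a)) :
    volume (Bt S idx t u) ≤ volume (LV S e 0) := by
  classical
  let s : ℕ → Fin r → ℝ := fun M j => if h : ∃ a, idx a = j then t h.choose else (M : ℝ)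
  have hs : ∀ M a, s M (idx a) = t a := by
    intro M a
    have h1 : ∃ a', idx a' = idx a := ⟨a, rfl⟩
    have h2 : h1.choose = a := hinj h1.choose_spec
    simp only [s]
    rw [dif_pos h1, h2]
  have hs' : ∀ M j, (¬ ∃ a, idx a = j) → s M j = M := by
    intro M j hj
    simp only [s]
    rw [dif_neg hj]
  have hle : ∀ M, volume (LV S (s M) u) ≤ volume (LV S e 0) := by
    intro M
    apply h
    rw [← sum_idx hinj hr, ← sum_idx hinj hr]
    simpa only [hs] using ht
  have hmono : Monotone fun M => LV S (s M) u := by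
    intro M M' hM x hx j
    refine (hx j).trans ?_
    by_cases hj : ∃ a, idx a = j
    · obtain ⟨a, rfl⟩ := hj
      rw [hs, hs]
    · rw [hs' M j hj, hs' M' j hj]
      exact_mod_cast hM
  have hsub : Bt S idx t u ⊆ ⋃ M, LV S (s M) u := by
    intro x hx
    rw [mem_iUnion]
    refine ⟨⌈∑ j, |S j (x, u)|⌉₊, fun j => ?_⟩
    by_cases hj : ∃ a, idx a = j
    · obtain ⟨a, rfl⟩ := hj
      rw [hs]
      exact hx a
    · rw [hs' _ j hj]
      refine le_trans ?_ (Nat.le_ceil _)
      exact (le_abs_self _).trans (Finset.single_le_sum (f := fun j => |S j (x, u)|)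
        (fun _ _ => abs_nonneg _) (Finset.mem_univ j))
  refine (measure_mono hsub).trans ?_
  rw [hmono.measure_iUnion]
  exact iSup_le hle

lemma Bt_convex (hS : ∀ j, ConvexOn ℝ univ (S j)) (idx : Fin m → Fin r) (t : Fin m → ℝ)
    (u : E q) : Convex ℝ (Bt S idx t u) := by
  intro x hx y hy a b ha hb hab c
  have h1 := conv hS (idx c) (x := (x, u)) (y := (y, u)) ha hb hab
  have h0 : a • (x, u) + b • (y, u) = (a • x + b • y, u) := by
    ext1
    · simp
    · simp [← add_smul, hab]
  rw [h0] at h1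
  have h2 : a * S (idx c) (x, u) ≤ a * t c := mul_le_mul_of_nonneg_left (hx c) ha
  have h3 : b * S (idx c) (y, u) ≤ b * t c := mul_le_mul_of_nonneg_left (hy c) hb
  have h4 : a * t c + b * t c = t c := by rw [← add_mul, hab, one_mul]
  linarith

lemma contx (hS : ∀ j, ConvexOn ℝ univ (S j)) (j : Fin r) :
    Continuous fun x : E n => S j (x, (0 : E q)) :=
  (cont hS j).comp (by fun_prop)

lemma claim2 {l e : Fin r → ℝ} {c : E q} {idx : Fin m → Fin r}
    (hS : ∀ j, ConvexOn ℝ univ (S j)) (hb : Bornology.IsBounded (LV S e 0))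
    (hx : ∃ x : E n, ∀ j, S j (x, 0) < e j)
    (h : ∀ (s : Fin r → ℝ) (u : E q), ∑ j, l j * s j + ⟪c, u⟫_ℝ ≤ ∑ j, l j * e j →
      volume (LV S s u) ≤ volume (LV S e 0))
    (hinj : Function.Injective idx) (hr : ∀ j, l j ≠ 0 → ∃ a, idx a = j) :
    Bt S idx (fun a => e (idx a)) 0 = LV S e 0 := by
  have hsub : LV S e 0 ⊆ Bt S idx (fun a => e (idx a)) 0 := fun x hx a => hx (idx a)
  refine Subset.antisymm ?_ hsub
  intro x hxB
  by_contra hxS
  have hvol := claim1 (t := fun a => e (idx a)) (u := 0) h hinj hr (by simp)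
  have hfin : volume (LV S e 0) ≠ ⊤ := hb.measure_lt_top.ne
  obtain ⟨x0, hx0⟩ := hx
  -- the interior of the bigger set is nonempty
  have hopen : IsOpen {y : E n | ∀ j, S j (y, 0) < e j} := by
    rw [Set.ofPred_forall]
    exact isOpen_iInter_of_finite fun j => isOpen_lt (contx hS j) continuous_const
  have hint : (interior (Bt S idx (fun a => e (idx a)) 0)).Nonempty := by
    refine ⟨x0, mem_interior.2 ⟨{y : E n | ∀ j, S j (y, 0) < e j}, ?_, hopen, hx0⟩⟩
    intro y hy a
    exact (hy (idx a)).le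
  obtain ⟨j0, hj0⟩ : ∃ j0, e j0 < S j0 (x, 0) := by
    by_contra hc
    push Not at hc
    exact hxS hc
  have hU : IsOpen {y : E n | e j0 < S j0 (y, 0)} := isOpen_lt continuous_const (contx hS j0)
  have hcl : x ∈ closure (interior (Bt S idx (fun a => e (idx a)) 0)) := by
    rw [(Bt_convex hS idx _ _).closure_interior_eq_closure_of_nonempty_interior hint]
    exact subset_closure hxB
  have hne : ({y : E n | e j0 < S j0 (y, 0)} ∩
      interior (Bt S idx (fun a => e (idx a)) 0)).Nonempty :=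
    mem_closure_iff.1 hcl _ hU hj0
  have hpos : 0 < volume ({y : E n | e j0 < S j0 (y, 0)} ∩
      interior (Bt S idx (fun a => e (idx a)) 0)) :=
    (hU.inter isOpen_interior).measure_pos volume hne
  have hdis : Disjoint (LV S e 0) ({y : E n | e j0 < S j0 (y, 0)} ∩
      interior (Bt S idx (fun a => e (idx a)) 0)) := by
    rw [Set.disjoint_left]
    rintro y hy ⟨hy1, -⟩
    exact absurd (hy j0) (not_le.2 hy1)
  have h1 : volume (LV S e 0) + volume ({y : E n | e j0 < S j0 (y, 0)} ∩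
      interior (Bt S idx (fun a => e (idx a)) 0)) ≤ volume (LV S e 0) := by
    rw [← measure_union hdis (hU.inter isOpen_interior).measurableSet]
    refine (measure_mono ?_).trans hvol
    exact union_subset hsub (inter_subset_right.trans interior_subset)
  have h2 : volume (LV S e 0) + 0 < volume (LV S e 0) + volume ({y : E n | e j0 < S j0 (y, 0)} ∩
      interior (Bt S idx (fun a => e (idx a)) 0)) :=
    ENNReal.add_lt_add_left hfin hpos
  rw [add_zero] at h2
  exact absurd h1 (not_le.2 h2)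

lemma pq_cont : Continuous (pq q m) := by
  unfold pq
  fun_prop

lemma pq_conv (x y : E (q + m)) (a b : ℝ) : pq q m (a • x + b • y) = a • pq q m x + b • pq q m y := by
  ext i
  simp [pq]

lemma exists_pt (u : E q) (f : Fin m → ℝ) :
    ∃ t : E (q + m), pq q m t = u ∧ ∀ a, t (Fin.natAdd q a) = f a := by
  refine ⟨WithLp.toLp 2 (Fin.addCases (fun i => u i) f), ?_, fun a => by simp⟩
  ext i; simp [pq]

/-- the lifted body -/
def Lb (S : Fin r → E n × E q → ℝ) (idx : Fin m → Fin r) (l : Fin r → ℝ) (c : E q) (F : ℝ) :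
    Set (E n × E (q + m)) :=
  {z | (∀ a, S (idx a) (z.1, pq q m z.2) ≤ z.2 (Fin.natAdd q a)) ∧
    ∑ a, l (idx a) * z.2 (Fin.natAdd q a) + ⟪c, pq q m z.2⟫_ℝ ≤ F}

lemma Lb_convex (hS : ∀ j, ConvexOn ℝ univ (S j)) (idx : Fin m → Fin r) (l : Fin r → ℝ)
    (c : E q) (F : ℝ) : Convex ℝ (Lb S idx l c F) := by
  rintro ⟨x, t⟩ ⟨hx, hx'⟩ ⟨y, u⟩ ⟨hy, hy'⟩ a b ha hb hab
  refine ⟨fun k => ?_, ?_⟩
  · have h1 := conv hS (idx k) (x := (x, pq q m t)) (y := (y, pq q m u)) ha hb hab
    have h2 : a * S (idx k) (x, pq q m t) ≤ a * t (Fin.natAdd q k) :=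
      mul_le_mul_of_nonneg_left (hx k) ha
    have h3 : b * S (idx k) (y, pq q m u) ≤ b * u (Fin.natAdd q k) :=
      mul_le_mul_of_nonneg_left (hy k) hb
    have h4 : (a • (x, t) + b • (y, u)).2 (Fin.natAdd q k) =
      a * t (Fin.natAdd q k) + b * u (Fin.natAdd q k) := by simp
    have h5 : ((a • (x, t) + b • (y, u)).1, pq q m (a • (x, t) + b • (y, u)).2) =
        a • (x, pq q m t) + b • (y, pq q m u) := by
      ext1
      · simp
      · simp [pq_conv]
    rw [h4, h5]
    linarith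
  · have h4 : ∀ c, (a • (x, t) + b • (y, u)).2 c = a * t c + b * u c := fun c => by simp
    have h5 : pq q m (a • (x, t) + b • (y, u)).2 = a • pq q m t + b • pq q m u := by
      simp [pq_conv]
    rw [h5]
    simp only [h4]
    have h6 : ∑ k, l (idx k) * (a * t (Fin.natAdd q k) + b * u (Fin.natAdd q k)) =
        a * ∑ k, l (idx k) * t (Fin.natAdd q k) + b * ∑ k, l (idx k) * u (Fin.natAdd q k) := by
      rw [Finset.mul_sum, Finset.mul_sum, ← Finset.sum_add_distrib]
      exact Finset.sum_congr rfl fun k _ => by ring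
    rw [h6, inner_add_right, inner_smul_right, inner_smul_right]
    have h2 := mul_le_mul_of_nonneg_left hx' ha
    have h3 := mul_le_mul_of_nonneg_left hy' hb
    have h7 : a * F + b * F = F := by rw [← add_mul, hab, one_mul]
    simp only at h2 h3
    linarith

lemma Lb_closed (hS : ∀ j, ConvexOn ℝ univ (S j)) (idx : Fin m → Fin r) (l : Fin r → ℝ)
    (c : E q) (F : ℝ) : IsClosed (Lb S idx l c F) := by
  have h2 : ∀ a, Continuous fun z : E n × E (q + m) => z.2 a := fun a => by fun_prop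
  have h3 : Continuous fun z : E n × E (q + m) => (z.1, pq q m z.2) :=
    continuous_fst.prodMk (pq_cont.comp continuous_snd)
  have e : Lb S idx l c F =
      (⋂ a, {z : E n × E (q + m) | S (idx a) (z.1, pq q m z.2) ≤ z.2 (Fin.natAdd q a)}) ∩
      {z : E n × E (q + m) | ∑ a, l (idx a) * z.2 (Fin.natAdd q a) + ⟪c, pq q m z.2⟫_ℝ ≤ F} := by
    ext z
    simp [Lb]
  rw [e]
  refine (isClosed_iInter fun a => isClosed_le ((cont hS (idx a)).comp h3)
    (h2 _)).inter (isClosed_le ?_ continuous_const)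
  have hi : Continuous fun z : E n × E (q + m) => ⟪c, pq q m z.2⟫_ℝ :=
    continuous_const.inner (pq_cont.comp continuous_snd)
  have hs : Continuous fun z : E n × E (q + m) => ∑ a, l (idx a) * z.2 (Fin.natAdd q a) :=
    continuous_finsetSum _ fun a _ => continuous_const.mul (h2 _)
  exact hs.add hi

lemma bdd_box {k : ℕ} (C : Fin k → ℝ) : Bornology.IsBounded {t : E k | ∀ a, |t a| ≤ C a} := by
  rw [Metric.isBounded_iff_subset_closedBall 0]
  refine ⟨Real.sqrt (∑ a, C a ^ 2), fun t ht => ?_⟩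
  rw [mem_closedBall_zero_iff, EuclideanSpace.norm_eq]
  apply Real.sqrt_le_sqrt
  refine Finset.sum_le_sum fun a _ => ?_
  rw [Real.norm_eq_abs]
  exact pow_le_pow_left₀ (abs_nonneg _) (ht a) 2

end

theorem t_PLF (h1 : S_PSUP) : S_PLF := by
  classical
  intro r n q S e hn hr hS hS0 hsup hx
  have hbd : ∀ s : Fin r → ℝ, Bornology.IsBounded {z : E n × E q | ∀ j, S j z ≤ s j} := by
    intro s
    obtain ⟨b, hb⟩ := hsup ⟨0, hr⟩ 1
    rw [Metric.isBounded_iff_subset_closedBall 0]
    refine ⟨s ⟨0, hr⟩ + b, fun z hz => ?_⟩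
    rw [mem_closedBall_zero_iff]
    have := hb z
    have h3 := hz ⟨0, hr⟩
    linarith
  have hbe : Bornology.IsBounded (LV S e 0) := by
    obtain ⟨b, hb⟩ := hsup ⟨0, hr⟩ 1
    rw [Metric.isBounded_iff_subset_closedBall 0]
    refine ⟨e ⟨0, hr⟩ + b, fun x hx => ?_⟩
    rw [mem_closedBall_zero_iff]
    have h2 := hb (x, 0)
    have h3 := hx ⟨0, hr⟩
    have h4 : ‖x‖ ≤ ‖((x, 0) : E n × E q)‖ := norm_fst_le (x, (0 : E q))
    linarith
  obtain ⟨l, c, hl0, ⟨j₁, hj₁⟩, hl⟩ := h1 r n q S e hn hS hbd hx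
  let I : Finset (Fin r) := Finset.univ.filter fun j => l j ≠ 0
  let m := I.card
  let idx : Fin m → Fin r := I.orderEmbOfFin rfl
  have hinj : Function.Injective idx := (I.orderEmbOfFin rfl).injective
  have hmem : ∀ a, idx a ∈ I := fun a => I.orderEmbOfFin_mem rfl a
  have hrg : ∀ j, l j ≠ 0 → ∃ a, idx a = j := by
    intro j hj
    have h3 : j ∈ I := Finset.mem_filter.2 ⟨Finset.mem_univ _, hj⟩
    have h4 : j ∈ Set.range (I.orderEmbOfFin rfl) := by
      rw [Finset.range_orderEmbOfFin]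
      exact h3
    exact h4
  have hlpos : ∀ a, 0 < l (idx a) := fun a =>
    lt_of_le_of_ne (hl0 _) (Ne.symm (Finset.mem_filter.1 (hmem a)).2)
  have hmr : m ≤ r := (Finset.card_le_univ I).trans (by simp)
  set F : ℝ := ∑ a, l (idx a) * e (idx a) with hF
  let ts : E (q + m) := WithLp.toLp 2 (Fin.addCases (fun _ => 0) fun a => e (idx a))
  have hts : ∀ a, ts (Fin.natAdd q a) = e (idx a) := fun a => by simp [ts]
  have hts' : pq q m ts = 0 := by
    ext i; simp [ts, pq]
  have hB := claim2 hS hbe hx hl hinj hrg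
  have hfin : volume (LV S e 0) ≠ ⊤ := hbe.measure_lt_top.ne
  have hslts : sl (Lb S idx l c F) ts = LV S e 0 := by
    rw [← hB]
    ext x
    constructor
    · rintro ⟨h3, -⟩ a
      have := h3 a
      simp only [hts, hts'] at this
      exact this
    · intro h3
      refine ⟨fun a => ?_, ?_⟩
      · simp only [hts, hts']
        exact h3 a
      · simp only [hts, hts', inner_zero_right, add_zero]
        exact le_rfl
  obtain ⟨x0, hx0⟩ := id hx
  have ⟨a₁, ha₁⟩ := hrg j₁ hj₁
  refine ⟨m, Lb S idx l c F, ts, l, c, F, hmr, ⟨?_, ?_, ?_⟩, ?_, hslts, hl0, ?_⟩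
  · exact Lb_convex hS idx l c F
  · refine Metric.isCompact_of_isClosed_isBounded (Lb_closed hS idx l c F) ?_
    -- boundedness
    obtain ⟨b0, hb0⟩ := hsup (idx a₁) ((‖c‖ + 1) / l (idx a₁))
    set R : ℝ := F + l (idx a₁) * b0 with hR
    have key : ∀ z ∈ Lb S idx l c F, ‖(z.1, pq q m z.2)‖ ≤ R := by
      rintro z ⟨h3, h4⟩
      have h5 : ∑ a, l (idx a) * S (idx a) (z.1, pq q m z.2) ≤
          ∑ a, l (idx a) * z.2 (Fin.natAdd q a) :=
        Finset.sum_le_sum fun a _ => mul_le_mul_of_nonneg_left (h3 a) (hlpos a).le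
      have h6 : l (idx a₁) * S (idx a₁) (z.1, pq q m z.2) ≤
          ∑ a, l (idx a) * S (idx a) (z.1, pq q m z.2) :=
        Finset.single_le_sum (f := fun a => l (idx a) * S (idx a) (z.1, pq q m z.2))
          (fun a _ => mul_nonneg (hlpos a).le (hS0 _ _)) (Finset.mem_univ a₁)
      have h7 : -(‖c‖ * ‖pq q m z.2‖) ≤ ⟪c, pq q m z.2⟫_ℝ :=
        neg_le_of_abs_le (abs_real_inner_le_norm _ _)
      have h8 : ‖pq q m z.2‖ ≤ ‖(z.1, pq q m z.2)‖ := norm_snd_le (z.1, pq q m z.2)
      have h9 := hb0 (z.1, pq q m z.2)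
      have h10 : l (idx a₁) * ((‖c‖ + 1) / l (idx a₁) * ‖(z.1, pq q m z.2)‖) ≤
          l (idx a₁) * (S (idx a₁) (z.1, pq q m z.2) + b0) :=
        mul_le_mul_of_nonneg_left h9 (hlpos a₁).le
      have h11 : l (idx a₁) * ((‖c‖ + 1) / l (idx a₁) * ‖(z.1, pq q m z.2)‖) =
          (‖c‖ + 1) * ‖(z.1, pq q m z.2)‖ := by
        have := (hlpos a₁).ne'
        field_simp
      have h12 : ‖c‖ * ‖pq q m z.2‖ ≤ ‖c‖ * ‖(z.1, pq q m z.2)‖ :=
        mul_le_mul_of_nonneg_left h8 (norm_nonneg _)
      rw [h11] at h10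
      rw [hR]
      nlinarith
    have key2 : ∀ z ∈ Lb S idx l c F, ∀ a, z.2 (Fin.natAdd q a) ≤ (F + ‖c‖ * R) / l (idx a) := by
      intro z hz a
      have h5 := key z hz
      obtain ⟨h3, h4⟩ := hz
      have h7 : -(‖c‖ * ‖pq q m z.2‖) ≤ ⟪c, pq q m z.2⟫_ℝ :=
        neg_le_of_abs_le (abs_real_inner_le_norm _ _)
      have h8 : ‖pq q m z.2‖ ≤ ‖(z.1, pq q m z.2)‖ := norm_snd_le (z.1, pq q m z.2)
      have h12 : ‖c‖ * ‖pq q m z.2‖ ≤ ‖c‖ * R :=
        mul_le_mul_of_nonneg_left (h8.trans h5) (norm_nonneg _)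
      have h6 : l (idx a) * z.2 (Fin.natAdd q a) ≤ ∑ a, l (idx a) * z.2 (Fin.natAdd q a) :=
        Finset.single_le_sum (f := fun a => l (idx a) * z.2 (Fin.natAdd q a))
          (fun a _ => mul_nonneg (hlpos a).le ((hS0 _ _).trans (h3 a))) (Finset.mem_univ a)
      rw [le_div_iff₀ (hlpos a), mul_comm]
      linarith
    have hball : Bornology.IsBounded (Metric.closedBall (0 : E n) R) := Metric.isBounded_closedBall
    refine (hball.prod (bdd_box (Fin.addCases (fun _ => R)
      fun a => (F + ‖c‖ * R) / l (idx a)))).subset ?_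
    intro z hz
    refine ⟨?_, fun k => ?_⟩
    · rw [mem_closedBall_zero_iff]
      exact (norm_fst_le (z.1, pq q m z.2)).trans (key z hz)
    · refine Fin.addCases (fun i => ?_) (fun a => ?_) k
      · rw [Fin.addCases_left]
        have h3 : ‖(pq q m z.2) i‖ ≤ ‖pq q m z.2‖ := PiLp.norm_apply_le _ _
        exact h3.trans ((norm_snd_le (z.1, pq q m z.2)).trans (key z hz))
      · rw [Fin.addCases_right, abs_of_nonneg ((hS0 _ _).trans (hz.1 a))]
        exact key2 z hz a
  · -- positive volume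
    have h2c : ∀ a, Continuous fun z : E n × E (q + m) => z.2 a := fun a => by fun_prop
    have h3c : Continuous fun z : E n × E (q + m) => (z.1, pq q m z.2) :=
      continuous_fst.prodMk (pq_cont.comp continuous_snd)
    have hO : IsOpen ((⋂ a, {z : E n × E (q + m) | S (idx a) (z.1, pq q m z.2) <
        z.2 (Fin.natAdd q a)}) ∩
        {z : E n × E (q + m) | ∑ a, l (idx a) * z.2 (Fin.natAdd q a) + ⟪c, pq q m z.2⟫_ℝ < F}) := by
      refine (isOpen_iInter_of_finite fun a => isOpen_lt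
        ((cont hS (idx a)).comp h3c) (h2c _)).inter (isOpen_lt ?_ continuous_const)
      have hi : Continuous fun z : E n × E (q + m) => ⟪c, pq q m z.2⟫_ℝ :=
        continuous_const.inner (pq_cont.comp continuous_snd)
      have hs : Continuous fun z : E n × E (q + m) => ∑ a, l (idx a) * z.2 (Fin.natAdd q a) :=
        continuous_finsetSum _ fun a _ => continuous_const.mul (h2c _)
      exact hs.add hi
    have hne : ((⋂ a, {z : E n × E (q + m) | S (idx a) (z.1, pq q m z.2) <
        z.2 (Fin.natAdd q a)}) ∩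
        {z : E n × E (q + m) | ∑ a, l (idx a) * z.2 (Fin.natAdd q a) + ⟪c, pq q m z.2⟫_ℝ < F}).Nonempty := by
      obtain ⟨tt, g1, g2⟩ := exists_pt (q := q) 0 fun a => (S (idx a) (x0, 0) + e (idx a)) / 2
      refine ⟨(x0, tt), ?_, ?_⟩
      · rw [mem_iInter]
        intro a
        have h3 := hx0 (idx a)
        rw [Set.mem_ofPred_eq]
        simp only
        rw [g1, g2]
        linarith
      · rw [Set.mem_ofPred_eq]
        simp only
        rw [g1, inner_zero_right, add_zero]
        simp only [g2]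
        rw [hF]
        refine Finset.sum_lt_sum (fun a _ => ?_) ⟨a₁, Finset.mem_univ _, ?_⟩
        · apply mul_le_mul_of_nonneg_left _ (hlpos a).le
          have := hx0 (idx a)
          linarith
        · apply mul_lt_mul_of_pos_left _ (hlpos a₁)
          have := hx0 (idx a₁)
          linarith
    refine (hO.measure_pos volume hne).trans_le (measure_mono ?_)
    rintro z ⟨hz1, hz2⟩
    rw [mem_iInter] at hz1
    exact ⟨fun a => (hz1 a).le, (le_of_lt hz2 : _ ≤ F)⟩
  · -- maximality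
    intro t
    unfold Rv
    rw [hslts]
    apply ENNReal.toReal_mono hfin
    by_cases ht : ∑ a, l (idx a) * t (Fin.natAdd q a) + ⟪c, pq q m t⟫_ℝ ≤ F
    · refine le_trans (measure_mono ?_) (claim1 (t := fun a => t (Fin.natAdd q a))
        (u := pq q m t) hl hinj hrg ht)
      rintro x ⟨h3, -⟩ a
      exact h3 a
    · have : sl (Lb S idx l c F) t = ∅ := by
        rw [Set.eq_empty_iff_forall_notMem]
        rintro x ⟨-, h4⟩
        exact ht h4
      rw [this, measure_empty]
      exact zero_le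
  · -- the projection
    ext z
    rw [Set.mem_ofPred_eq, ← sum_idx hinj hrg (fun j => S j z)]
    constructor
    · rintro ⟨⟨x', t⟩, ⟨h3, h4⟩, rfl⟩
      refine le_trans ?_ h4
      have h5 := Finset.sum_le_sum fun a (_ : a ∈ Finset.univ) =>
        mul_le_mul_of_nonneg_left (h3 a) (hlpos a).le
      simp only at h5 ⊢
      linarith
    · intro h3
      obtain ⟨tt, g1, g2⟩ := exists_pt z.2 fun a => S (idx a) z
      refine ⟨(z.1, tt), ⟨fun a => ?_, ?_⟩, ?_⟩
      · simp only
        rw [g1, g2]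
      · simp only
        rw [g1]
        simp only [g2]
        exact h3
      · simp only
        rw [g1]

end Pool.Agent.N170.KM
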